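import Mathlib
import Pool.Agent.K6.H38.CT.I

/-!
# Exact tail laws for the coalescence of `x` and `x + r` under the `3x+1` map on the integers

For a fixed `r ≠ 0` follow the trajectories of `x` and `x + r` under the shortcut map `T`, step by
step.  Let `h` be the sum over `t` of the densities of the `x` for which after `t` steps both
trajectories have had the same number of odd terms and the two current terms have different parities.
We prove that `1 ≤ h ≤ K √(1 + log |r|)` and that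

* the density `a m` of the `x` for which the numbers of odd terms differ at some time by at least `m`
  satisfies `m * a m ≤ h` and `m * a m → h`;
* the density `b n` of the `x` for which the parities differ at least `n` times satisfies
  `√n * b n → h √(2/π)`;
* the density `c k` of the `x` with `T^k x ≠ T^k (x + r)` is at least `b (k + 1)` and at most
  `K √(1 + log |r|) / √k`, so it has the exact order `1 / √k`;
* for every set `S` of integers invariant under the Collatz map and its inverse (for instance the set of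
  the integers whose trajectory enters a given cycle) and all `N ≥ 2`, at most
  `K √(1 + log |r|) N / √(log N)` of the integers `|x| ≤ N` are such that exactly one of
  `x`, `x + r` is in `S`.
-/

set_option autoImplicit false

namespace Pool.Agent.Results.MP_d02c56_nt.CoalescenceTails

open Filter Topology

/-- The Collatz map on the integers. -/
def C (x : ℤ) : ℤ := if x % 2 = 0 then x / 2 else 3 * x + 1

/-- The shortcut map: one step of `C` for even `x`, two steps for odd `x`. -/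
def T (x : ℤ) : ℤ := if x % 2 = 0 then x / 2 else (3 * x + 1) / 2

/-- The number of odd terms among `x, T x, ..., T^(t-1) x`. -/
def odds (t : ℕ) (x : ℤ) : ℕ := ((Finset.range t).filter fun j => T^[j] x % 2 = 1).card

/-- `S` has natural density `δ` among the positive integers and among the negative integers. -/
def HasDensity (S : Set ℤ) (δ : ℝ) : Prop := ∀ s : ℤ, s = 1 ∨ s = -1 →
  Tendsto (fun N : ℕ => ({n : ℕ | 1 ≤ n ∧ n ≤ N ∧ s * n ∈ S}.ncard : ℝ) / N) atTop (𝓝 δ)

theorem result : ∃ K : ℝ, 0 < K ∧ ∀ r : ℤ, r ≠ 0 → ∃ (h : ℝ) (z a b c : ℕ → ℝ),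
    (1 ≤ h ∧ h ≤ K * √(1 + Real.log |(r : ℝ)|)) ∧
    ((∀ t, HasDensity {x | odds t x = odds t (x + r) ∧ T^[t] x % 2 ≠ T^[t] (x + r) % 2} (z t)) ∧
      HasSum z h) ∧
    ((∀ m : ℕ, HasDensity {x | ∃ t, (m : ℤ) ≤ |(odds t x : ℤ) - odds t (x + r)|} (a m)) ∧
      (∀ m, m * a m ≤ h) ∧ Tendsto (fun m : ℕ => m * a m) atTop (𝓝 h)) ∧
    ((∀ n : ℕ, HasDensity {x | ∃ J : Finset ℕ, n ≤ J.card ∧
        ∀ j ∈ J, T^[j] x % 2 ≠ T^[j] (x + r) % 2} (b n)) ∧
      Tendsto (fun n : ℕ => √(n : ℝ) * b n) atTop (𝓝 (h * √(2 / Real.pi)))) ∧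
    ((∀ k : ℕ, HasDensity {x | T^[k] x ≠ T^[k] (x + r)} (c k)) ∧ (∀ k, b (k + 1) ≤ c k) ∧
      (∀ k : ℕ, √(k : ℝ) * c k ≤ K * √(1 + Real.log |(r : ℝ)|)) ∧
      ∀ ε : ℝ, 0 < ε → ∀ᶠ k : ℕ in atTop, h * √(2 / Real.pi) - ε ≤ √(k : ℝ) * c k) ∧
    ∀ S : Set ℤ, (∀ x, x ∈ S ↔ C x ∈ S) → ∀ N : ℕ, 2 ≤ N →
      ({x : ℤ | |x| ≤ N ∧ ¬ (x ∈ S ↔ x + r ∈ S)}.ncard : ℝ) ≤
        K * √(1 + Real.log |(r : ℝ)|) * N / √(Real.log N) := by
  open Pool.Agent.K6.H38.CT Pool.Agent.H499R2.CO in
  obtain ⟨K1, hK1, h1⟩ := N_log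
  obtain ⟨K2, hK2, h2⟩ := q_log
  obtain ⟨K3, hK3, h3⟩ := split_pairs
  have hT : (Tz 1 : ℤ → ℤ) = T := rfl
  have hod : ∀ t x, Pool.Agent.K6.H38.CT.od t x = odds t x := fun _ _ => rfl
  have hD : ∀ S δ, Pool.Agent.K6.H38.CT.HDn S δ ↔ HasDensity S δ := fun _ _ => Iff.rfl
  refine ⟨K1 + K2 + K3, by positivity, fun r hr => ?_⟩
  have hL : 0 ≤ √(1 + Real.log |(r : ℝ)|) := Real.sqrt_nonneg _
  have hlim := Di_lim r
  refine ⟨Ni bz (0, r), fun t => (P^[t] bz) (0, r), fun m => Ai m (0, r), fun n => Di n (0, r),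
    fun k => q step (0, 0) k (0, r), ⟨Ni_ge_one hr, ?_⟩, ⟨fun t => ?_, Nb_hasSum _⟩,
    ⟨fun m => ?_, fun m => ?_, ?_⟩, ⟨fun n => ?_, hlim⟩, ⟨fun k => ?_, fun k => Di_le_q k r, fun k => ?_,
    fun ε hε => ?_⟩, fun S hS N hN => ?_⟩
  · refine (h1 r hr).trans (mul_le_mul_of_nonneg_right (by linarith) hL)
  · have h := dens_zero t r
    rw [hD, hT] at h
    have e : {x | odds t x = odds t (x + r) ∧ T^[t] x % 2 ≠ T^[t] (x + r) % 2} =
        {x | odds t (x + r) = odds t x ∧ T^[t] x % 2 ≠ T^[t] (x + r) % 2} := by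
      ext x; simp only [Set.mem_ofPred_eq, eq_comm]
    rw [e]
    exact h
  · have h := dens_level m r
    rw [hD] at h
    have e : {x | ∃ t, (m : ℤ) ≤ |(odds t x : ℤ) - odds t (x + r)|} =
        {x | ∃ t, (m : ℤ) ≤ |(odds t (x + r) : ℤ) - odds t x|} := by
      ext x; simp only [Set.mem_ofPred_eq, abs_sub_comm]
    rw [e]
    exact h
  · have := Ai_le (m := m) (s := (0, r)) (Nat.zero_le _)
    simpa using this
  · have := Ai_lim (0, r)
    simpa using this
  · exact dens_dis n r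
  · exact dens_merge k r
  · refine (h2 r hr k).trans (mul_le_mul_of_nonneg_right (by linarith) hL)
  · have h4 : Tendsto (fun k : ℕ => √((k + 1 : ℕ) : ℝ) * Di (k + 1) (0, r)) atTop
        (𝓝 (Ni bz (0, r) * √(2 / Real.pi))) := hlim.comp (tendsto_add_atTop_nat 1)
    have h5 := (sqrt_ratio 0 1).mul h4
    rw [one_mul] at h5
    filter_upwards [h5.eventually (lt_mem_nhds (show Ni bz (0, r) * √(2 / Real.pi) - ε <
      Ni bz (0, r) * √(2 / Real.pi) by linarith))] with k hk
    refine hk.le.trans ?_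
    have p : 0 < √((k + 1 : ℕ) : ℝ) := by positivity
    have e : √((k + 0 : ℕ) : ℝ) / √((k + 1 : ℕ) : ℝ) * (√((k + 1 : ℕ) : ℝ) * Di (k + 1) (0, r)) =
        √(k : ℝ) * Di (k + 1) (0, r) := by
      rw [add_zero]; field_simp
    rw [e]
    exact mul_le_mul_of_nonneg_left (Di_le_q k r) (Real.sqrt_nonneg _)
  · have hS' : ∀ x, x ∈ S ↔ T x ∈ S := by
      intro x
      unfold T
      rcases Int.emod_two_eq_zero_or_one x with h | h
      · rw [if_pos h, hS x]; unfold C; rw [if_pos h]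
      · have e1 : C x = 3 * x + 1 := by unfold C; rw [if_neg (by omega)]
        have e2 : C (3 * x + 1) = (3 * x + 1) / 2 := by unfold C; rw [if_pos (by omega)]
        rw [if_neg (by omega), hS x, e1, hS (3 * x + 1), e2]
    refine (h3 r hr S hS' N hN).trans ?_
    apply div_le_div_of_nonneg_right _ (Real.sqrt_nonneg _)
    apply mul_le_mul_of_nonneg_right _ (by positivity)
    exact mul_le_mul_of_nonneg_right (by linarith) hL

end Pool.Agent.Results.MP_d02c56_nt.CoalescenceTails
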