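import Pool.Agent.K6.H38.ND.Mer3
import Pool.Agent.K6.H38.ND.Prog3
import Pool.Agent.H499R2.NDClass2

/-!
Error terms for the sets of integers which are invariant under the Collatz map.

Every set of integers which contains `x` if and only if it contains `C x` (every union of basins of
cycles, the set of the integers with an unbounded trajectory) is counted, with a smooth weight, by its
natural density with an error which is smaller than any power of the logarithm, uniformly in the set
and in the residue classes modulo `2^j 3^m` up to a power of the size of the integers. The sum of the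
reciprocals of its elements up to `x` is `D log x` plus a constant, up to an error that tends to zero.

The counting function is almost invariant under the random walk with the steps `- log 2`, `log (3/2)`
(up to an error smaller than any power of the logarithm, by the equidistribution modulo powers of three
of Pool/Agent/H320R2). If the weight is smooth then so are all translates; a small combination of `log 2`
and `log 3` (which exists, and is not too small, by the irrationality measure) moves the walk by almost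
nothing at a cost of a power of its length; repeated differences give any power.
-/

set_option autoImplicit false

namespace Pool.Agent.Results.MP_d02c56_nt.ErrorTerms

open Filter Topology ContDiff MeasureTheory

/-- The Collatz map on the integers. -/
def C (x : ℤ) : ℤ := if x % 2 = 0 then x / 2 else 3 * x + 1

/-- `S` contains `x` if and only if it contains `C x`. -/
def Invariant (S : Set ℤ) : Prop := ∀ x : ℤ, x ∈ S ↔ C x ∈ S

/-- Among the integers of sign `s` the set `S` has natural density `D`. -/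
def HasDensity (s : ℤ) (S : Set ℤ) (D : ℝ) : Prop :=
  Tendsto (fun N : ℕ => ({n : ℤ | 0 < s * n ∧ s * n ≤ N ∧ n ∈ S}.ncard : ℝ) / N) atTop (𝓝 D)

/-- The sum of `φ (|n| / x)` over the `n ≡ a` modulo `q` in `S` of sign `s`. -/
noncomputable def weighted (s : ℤ) (S : Set ℤ) (q a : ℤ) (φ : ℝ → ℝ) (x : ℝ) : ℝ :=
  ∑' n : {n : ℤ | 0 < s * n ∧ n ∈ S ∧ n ≡ a [ZMOD q]}, φ (|((n : ℤ) : ℝ)| / x)

/-- The sum of `1 / |n|` over the `n` in `S` of sign `s` with `|n| ≤ x`. -/
noncomputable def reciprocals (s : ℤ) (S : Set ℤ) (x : ℝ) : ℝ :=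
  ∑' n : {n : ℤ | 0 < s * n ∧ n ∈ S ∧ |(n : ℝ)| ≤ x}, 1 / |((n : ℤ) : ℝ)|

/-! ### proofs -/

open Pool.Agent.K6.H38.ND Pool.Agent.H499R2.ND Pool.Agent.H320R2.PD

theorem bridge {s : ℤ} (hs : s = 1 ∨ s = -1) {A : Set ℤ} (hA : ∀ n ∈ A, 0 < s * n) (f : ℤ → ℝ) :
    ∑' n : A, f n = ∑' k : ℕ, A.indicator f (s * k) := by
  rw [tsum_subtype]
  have hinj : Function.Injective (fun k : ℕ => s * (k : ℤ)) := by
    intro a b hab
    rcases hs with rfl | rfl
    · simp at hab; exact hab
    · simp at hab; exact hab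
  rw [← hinj.tsum_eq]
  intro n hn
  rw [Function.mem_support] at hn
  have hnA : n ∈ A := by
    by_contra h
    exact hn (Set.indicator_of_notMem h f)
  have h1 := hA n hnA
  refine ⟨(s * n).toNat, ?_⟩
  simp only
  rw [Int.toNat_of_nonneg h1.le]
  rcases hs with rfl | rfl <;> ring

theorem abs_s {s : ℤ} (hs : s = 1 ∨ s = -1) (k : ℕ) : |((s * (k : ℤ) : ℤ) : ℝ)| = k := by
  rcases hs with rfl | rfl <;> simp

theorem ss {s : ℤ} (hs : s = 1 ∨ s = -1) (x : ℤ) : s * (s * x) = x := by
  rcases hs with rfl | rfl <;> ring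

theorem mod_iff {s : ℤ} (hs : s = 1 ∨ s = -1) (k a q : ℤ) : s * k ≡ a [ZMOD q] ↔ q ∣ k - s * a := by
  rw [Int.modEq_comm, Int.modEq_iff_dvd]
  rcases hs with rfl | rfl
  · simp
  · rw [show (-1 : ℤ) * k - a = -(k - -1 * a) by ring, dvd_neg]

theorem weighted_eq {s : ℤ} (hs : s = 1 ∨ s = -1) (S : Set ℤ) (q a : ℤ) (φ : ℝ → ℝ) (x : ℝ) :
    weighted s S q a φ x = ∑' n : ℕ, cc {y | s * y ∈ S} q (s * a) n * φ (n / x) := by
  unfold weighted
  rw [bridge hs (A := {n : ℤ | 0 < s * n ∧ n ∈ S ∧ n ≡ a [ZMOD q]}) (fun n hn => hn.1)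
    (fun n => φ (|(n : ℝ)| / x))]
  apply tsum_congr
  intro k
  classical
  rw [Set.indicator_apply]
  simp only [Set.mem_ofPred_eq]
  simp only [abs_s hs, ss hs, mod_iff hs]
  unfold cc chi
  simp only [Set.mem_ofPred_eq]
  by_cases h1 : q ∣ (k : ℤ) - s * a
  · by_cases h2 : 1 ≤ k ∧ s * (k : ℤ) ∈ S
    · rw [if_pos h1, if_pos h2, if_pos ⟨by omega, h2.2, h1⟩, one_mul]
    · rw [if_pos h1, if_neg h2, zero_mul, if_neg]
      rintro ⟨h3, h4, _⟩
      exact h2 ⟨by omega, h4⟩
  · rw [if_neg h1, zero_mul, if_neg]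
    rintro ⟨_, _, h4⟩
    exact h1 h4

theorem reciprocals_eq {s : ℤ} (hs : s = 1 ∨ s = -1) (S : Set ℤ) {x : ℝ} (hx : 0 ≤ x) :
    reciprocals s S x = LL {y | s * y ∈ S} x := by
  unfold reciprocals
  rw [bridge hs (A := {n : ℤ | 0 < s * n ∧ n ∈ S ∧ |(n : ℝ)| ≤ x}) (fun n hn => hn.1)
    (fun n => 1 / |(n : ℝ)|)]
  rw [tsum_eq_sum (s := Finset.Icc 0 ⌊x⌋₊)]
  · unfold LL
    apply Finset.sum_congr rfl
    intro k hk
    rw [Finset.mem_Icc] at hk
    have hkx : (k : ℝ) ≤ x := (Nat.le_floor_iff hx).1 hk.2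
    classical
    rw [Set.indicator_apply]
    simp only [Set.mem_ofPred_eq]
    simp only [abs_s hs, ss hs]
    unfold chi
    simp only [Set.mem_ofPred_eq]
    by_cases h2 : 1 ≤ k ∧ s * (k : ℤ) ∈ S
    · rw [if_pos h2, if_pos ⟨by omega, h2.2, hkx⟩]
    · rw [if_neg h2, zero_div, if_neg]
      rintro ⟨h3, h4, _⟩
      exact h2 ⟨by omega, h4⟩
  · intro k hk
    rw [Finset.mem_Icc, not_and_or] at hk
    have hkx : x < k := by
      rcases hk with hk | hk
      · omega
      · exact (Nat.floor_lt hx).1 (by omega)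
    apply Set.indicator_of_notMem
    rintro ⟨_, _, h3⟩
    rw [abs_s hs] at h3
    linarith

theorem ncard_eq {s : ℤ} (hs : s = 1 ∨ s = -1) (S : Set ℤ) (N : ℕ) :
    ({n : ℤ | 0 < s * n ∧ s * n ≤ N ∧ n ∈ S}.ncard : ℝ) = Pool.Agent.K6.H38.ND.cnt {y | s * y ∈ S} N := by
  classical
  have himg : {n : ℤ | 0 < s * n ∧ s * n ≤ N ∧ n ∈ S} = (fun k : ℕ => s * (k : ℤ)) ''
      (((Finset.range (N + 1)).filter fun k : ℕ => 1 ≤ k ∧ (k : ℤ) ∈ {y | s * y ∈ S} : Finset ℕ) : Set ℕ) := by
    ext n
    simp only [Set.mem_ofPred_eq, Set.mem_image, Finset.coe_filter, Finset.mem_range]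
    constructor
    · rintro ⟨h1, h2, h3⟩
      refine ⟨(s * n).toNat, ⟨by omega, by omega, ?_⟩, ?_⟩
      · rw [Int.toNat_of_nonneg h1.le, ss hs]; exact h3
      · rw [Int.toNat_of_nonneg h1.le, ss hs]
    · rintro ⟨k, ⟨h1, h2, h3⟩, rfl⟩
      rw [ss hs]
      exact ⟨by omega, by omega, h3⟩
  have hinj : Function.Injective (fun k : ℕ => s * (k : ℤ)) := by
    intro a b hab
    rcases hs with rfl | rfl
    · simp at hab; exact hab
    · simp at hab; exact hab
  rw [himg, Set.ncard_image_of_injective _ hinj, Set.ncard_coe_finset]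
  unfold Pool.Agent.K6.H38.ND.cnt chi
  rw [Nat.floor_natCast, Finset.sum_ite, Finset.sum_const_zero, add_zero, Finset.sum_const, nsmul_eq_mul, mul_one]

theorem hasDensity_of {s : ℤ} (hs : s = 1 ∨ s = -1) {S : Set ℤ} {D : ℝ}
    (hD : Tendsto (gg {y | s * y ∈ S} ind) atTop (𝓝 D)) : HasDensity s S D := by
  unfold HasDensity
  have h1 : Tendsto (fun N : ℕ => gg {y | s * y ∈ S} ind (Real.log N)) atTop (𝓝 D) :=
    hD.comp (Real.tendsto_log_atTop.comp tendsto_natCast_atTop_atTop)
  refine h1.congr' ?_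
  filter_upwards [eventually_ge_atTop 1] with N hN
  have hN0 : (0 : ℝ) < N := by exact_mod_cast hN
  rw [gg_ind, Real.exp_neg, Real.exp_log hN0, ncard_eq hs, div_eq_inv_mul]

/-- **Error terms for invariant sets.** Let `s = 1` or `s = -1`.

(1) For every `B` there is `c > 0`, and for every smooth function `φ` with compact support there is `K`,
such that for every invariant set `S` there is `D` with: `D` is the natural density of `S` among the
integers of sign `s`, and for all `x ≥ 2`, all moduli `q = 2^j 3^m ≤ x^c` and all `a` the sum of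
`φ (|n| / x)` over the `n ≡ a` modulo `q` in `S` of sign `s` differs from `D x / q` times the integral of
`φ` over the positive reals by at most `K (x / q) / (log x)^B`.

(2) There is `K` such that for every invariant set `S` there are `D` and `γ` with: `D` is the natural
density of `S` among the integers of sign `s`, and for all `x ≥ 2` the sum of `1 / |n|` over the `n` in
`S` of sign `s` with `|n| ≤ x` differs from `D log x + γ` by at most `K / (log x)^(1/30)`. -/
theorem result (s : ℤ) (hs : s = 1 ∨ s = -1) :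
    (∀ B : ℕ, ∃ c : ℝ, 0 < c ∧ ∀ φ : ℝ → ℝ, ContDiff ℝ ∞ φ → HasCompactSupport φ → ∃ K : ℝ,
      ∀ S : Set ℤ, Invariant S → ∃ D : ℝ, HasDensity s S D ∧
        ∀ x : ℝ, 2 ≤ x → ∀ j m : ℕ, (2 ^ j * 3 ^ m : ℝ) ≤ x ^ c → ∀ a : ℤ,
          |weighted s S (2 ^ j * 3 ^ m) a φ x - D * (∫ v in Set.Ioi (0 : ℝ), φ v) * (x / (2 ^ j * 3 ^ m))|
            ≤ K * (x / (2 ^ j * 3 ^ m)) / (Real.log x) ^ B) ∧
    ∃ K : ℝ, ∀ S : Set ℤ, Invariant S → ∃ D γ : ℝ, HasDensity s S D ∧
      ∀ x : ℝ, 2 ≤ x →
        |reciprocals s S x - (D * Real.log x + γ)| ≤ K / (Real.log x) ^ (1 / 30 : ℝ) := by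
  obtain ⟨_, _, hdens⟩ := cnt_rate hs
  constructor
  · intro B
    obtain ⟨c, hc, h⟩ := smooth_q B hs
    refine ⟨c, hc, fun φ hφ hcp => ?_⟩
    obtain ⟨R, hR, hRφ⟩ := hcp.exists_pos_le_norm
    have hgood : Good (max R 1) φ := by
      refine ⟨hφ, hcp, fun v hv => hRφ v ?_⟩
      rw [Real.norm_eq_abs]
      exact (le_max_left R 1).trans (hv.le.trans (le_abs_self v))
    obtain ⟨K, _, hK⟩ := h (le_max_right R 1) hgood
    refine ⟨K, fun S hS => ?_⟩
    have hinv : Inv s {y | s * y ∈ S} := Ci_inv_s hs hS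
    obtain ⟨D, _, _, hD, _⟩ := hdens _ hinv
    refine ⟨D, hasDensity_of hs hD, fun x hx j m hq a => ?_⟩
    rw [weighted_eq hs]
    exact hK _ hinv D hD x hx j m hq (s * a)
  · obtain ⟨K, _, h⟩ := LL_main hs
    refine ⟨K, fun S hS => ?_⟩
    have hinv : Inv s {y | s * y ∈ S} := Ci_inv_s hs hS
    obtain ⟨D, _, _, hD, _⟩ := hdens _ hinv
    obtain ⟨γ, hγ⟩ := h _ hinv D hD
    refine ⟨D, γ, hasDensity_of hs hD, fun x hx => ?_⟩
    rw [reciprocals_eq hs S (by linarith), ← sub_sub]
    exact hγ x hx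

end Pool.Agent.Results.MP_d02c56_nt.ErrorTerms
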