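import Mathlib
import Pool.Agent.K6.H13.KL.Pred

/-!
# A positive proportion of every residue class reaches a given number, uniformly

The set of the integers whose Collatz trajectory contains a given integer `a`, not divisible by
three, has positive lower density in every residue class of every modulus `m`, with a bound that is
uniform in `a` and in the class, and this with trajectories of logarithmic length.

Proof (`Pool/Agent/K6/H13/KL`).  The starting file `MP_d0d59f_nt/UniformPredecessors` gives the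
uniform bound without a condition on the class.  Each node `y` of the tree of the inverse iterates
which is not divisible by three has, at bounded height above it, a node of size `O(|y|)` in each
residue class: solve `3 ^ n z = 2 ^ e y - ∑ 3 ^ i 2 ^ (e_i)` modulo powers of three and modulo the
rest of the modulus.
-/

set_option autoImplicit false

namespace Pool.Agent.Results.MP_d02c56_nt.PredecessorsInClasses

/-- The Collatz function on the integers. -/
def C (x : ℤ) : ℤ := if x % 2 = 0 then x / 2 else 3 * x + 1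

/-- the accelerated map -/
lemma T_iter (k : ℕ) : ∀ x : ℤ, ∃ j ≤ 2 * k, C^[j] x = Pool.Agent.Helper894.Three.T^[k] x := by
  induction k with
  | zero => intro x; exact ⟨0, le_rfl, rfl⟩
  | succ k ih =>
    intro x
    obtain ⟨j, hj, h⟩ := ih (Pool.Agent.Helper894.Three.T x)
    rcases Int.emod_two_eq_zero_or_one x with h0 | h1
    · refine ⟨j + 1, by omega, ?_⟩
      rw [Function.iterate_succ_apply, Function.iterate_succ_apply, ← h]
      congr 1
      unfold C Pool.Agent.Helper894.Three.T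
      rw [if_pos h0, if_pos h0]
    · refine ⟨j + 1 + 1, by omega, ?_⟩
      rw [Function.iterate_succ_apply, Function.iterate_succ_apply, Function.iterate_succ_apply,
        ← h]
      congr 1
      unfold C Pool.Agent.Helper894.Three.T
      rw [if_neg (by omega : ¬ x % 2 = 0), if_neg (by omega : ¬ x % 2 = 0), if_pos (by omega)]

/-- For every modulus `m ≥ 1` there are `c, K > 0` such that for every integer `a` not divisible by
`3`, every integer `r` and every real `x ≥ K |a|`, at least `c x / |a|` integers `n` with `|n| ≤ x`,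
`n ≡ r (mod m)` and the sign of `a` satisfy `C^k(n) = a` for some `k ≤ K (1 + log (x / |a|))`. -/
theorem result (m : ℕ) (hm : 0 < m) :
    ∃ c K : ℝ, 0 < c ∧ 0 < K ∧ ∀ a r : ℤ, ¬ (3 : ℤ) ∣ a → ∀ x : ℝ, K * |(a : ℝ)| ≤ x →
      c * x / |(a : ℝ)| ≤ (Set.ncard {n : ℤ | |(n : ℝ)| ≤ x ∧ 0 < n * a ∧ n ≡ r [ZMOD m] ∧
        ∃ k : ℕ, (k : ℝ) ≤ K * (1 + Real.log (x / |(a : ℝ)|)) ∧ C^[k] n = a} : ℝ) := by
  obtain ⟨c, K, hc, hK, h⟩ := Pool.Agent.K6.H13.KL.pred_classes hm
  refine ⟨c, 2 * K, hc, by linarith, fun a r ha x hx => ?_⟩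
  have ha0 : a ≠ 0 := by rintro rfl; exact ha (dvd_zero _)
  have ha1 : (1 : ℝ) ≤ |(a : ℝ)| := by exact_mod_cast Int.one_le_abs ha0
  have hx1 : K * |(a : ℝ)| ≤ x := by nlinarith
  obtain ⟨S, hS, hcard⟩ := h a r ha x hx1
  refine hcard.trans ?_
  have hfin : {n : ℤ | |(n : ℝ)| ≤ x ∧ 0 < n * a ∧ n ≡ r [ZMOD m] ∧
      ∃ k : ℕ, (k : ℝ) ≤ 2 * K * (1 + Real.log (x / |(a : ℝ)|)) ∧ C^[k] n = a}.Finite := by
    apply (Set.finite_Icc (-⌈x⌉) ⌈x⌉).subset
    rintro z ⟨hz, -⟩
    rw [abs_le] at hz
    have h1 := Int.le_ceil x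
    rw [Set.mem_Icc]
    constructor
    · have : (-(⌈x⌉ : ℝ)) ≤ (z : ℝ) := by linarith
      exact_mod_cast this
    · have : (z : ℝ) ≤ (⌈x⌉ : ℝ) := by linarith
      exact_mod_cast this
  have hsub : (S : Set ℤ) ⊆ {n : ℤ | |(n : ℝ)| ≤ x ∧ 0 < n * a ∧ n ≡ r [ZMOD m] ∧
      ∃ k : ℕ, (k : ℝ) ≤ 2 * K * (1 + Real.log (x / |(a : ℝ)|)) ∧ C^[k] n = a} := by
    intro z hz
    obtain ⟨h1, h2, h3, k, hk, hka⟩ := hS z hz
    obtain ⟨j, hj, hjz⟩ := T_iter k z
    refine ⟨h1, h2, (Int.modEq_iff_dvd.2 h3).symm, j, ?_, by rw [hjz, hka]⟩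
    have h4 : (j : ℝ) ≤ 2 * k := by exact_mod_cast hj
    linarith
  have h2 := Set.ncard_le_ncard hsub hfin
  rw [Set.ncard_coe_finset] at h2
  exact_mod_cast h2

end Pool.Agent.Results.MP_d02c56_nt.PredecessorsInClasses
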